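import Pool.Agent.TH603.EL.Low
import Pool.Agent.TH603.EL.Scal2

/-! Hahn series whose support lies in a wedge, and their edge parts. -/

set_option autoImplicit false

namespace Pool.Agent.TH793.NG

open Pool.Agent.TH603.EL Pool.Agent.TH603.EL.Scal2

variable {F : Type} [Field F]

/-- the support lies in the wedge with vertex `c` -/
def Mc (a b s c : ℝ) (x : HR F) : Prop :=
  ∀ (n : ℝ) (i j : ℤ), cf x n i j ≠ 0 → 0 ≤ j ∧ c + a * i + s * j ≤ n ∧ c - b * i + s * j ≤ n

/-- the edge of positive powers of `z` -/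
noncomputable def Ep (a c : ℝ) (x : HR F) : PowerSeries F :=
  PowerSeries.mk fun k => cf x (c + a * k) k 0

/-- the edge of negative powers of `z` -/
noncomputable def Em (b c : ℝ) (x : HR F) : PowerSeries F :=
  PowerSeries.mk fun k => cf x (c + b * k) (-k) 0

theorem cf_sum {κ : Type*} (t : Finset κ) (f : κ → HR F) (n : ℝ) (i j : ℤ) :
    cf (∑ k ∈ t, f k) n i j = ∑ k ∈ t, cf (f k) n i j := by
  classical
  induction t using Finset.induction_on with
  | empty => simp [cf]
  | insert k t hk ih => rw [Finset.sum_insert hk, Finset.sum_insert hk, cf_add, ih]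

theorem cf_zero (n : ℝ) (i j : ℤ) : cf (0 : HR F) n i j = 0 := by simp [cf]

theorem cf_neg (x : HR F) (n : ℝ) (i j : ℤ) : cf (-x) n i j = -cf x n i j := by
  have h := cf_add x (-x) n i j
  rw [add_neg_cancel, cf_zero] at h
  exact (neg_eq_of_add_eq_zero_right h.symm).symm

section wedge
variable {a b s c c' : ℝ} {x y : HR F}

theorem Mc.zero : Mc a b s c (0 : HR F) := fun n i j h => absurd (cf_zero n i j) h

theorem Mc.add (hx : Mc a b s c x) (hy : Mc a b s c y) : Mc a b s c (x + y) := by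
  intro n i j h
  rw [cf_add] at h
  by_cases h1 : cf x n i j = 0
  · apply hy n i j
    intro h2
    apply h
    rw [h1, h2, add_zero]
  · exact hx n i j h1

theorem Mc.neg (hx : Mc a b s c x) : Mc a b s c (-x) := by
  intro n i j h
  rw [cf_neg] at h
  exact hx n i j (fun h1 => h (by rw [h1, neg_zero]))

theorem Mc.sub (hx : Mc a b s c x) (hy : Mc a b s c y) : Mc a b s c (x - y) := by
  rw [sub_eq_add_neg]; exact hx.add hy.neg

theorem Mc.sum {κ : Type*} (t : Finset κ) (f : κ → HR F) (h : ∀ k ∈ t, Mc a b s c (f k)) :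
    Mc a b s c (∑ k ∈ t, f k) := by
  classical
  induction t using Finset.induction_on with
  | empty => simpa using Mc.zero
  | insert k t hk ih =>
    rw [Finset.sum_insert hk]
    exact (h k (Finset.mem_insert_self _ _)).add (ih fun j hj => h j (Finset.mem_insert_of_mem hj))

theorem Mc.mul (hx : Mc a b s c x) (hy : Mc a b s c' y) : Mc a b s (c + c') (x * y) := by
  intro n i j h
  rw [cf_mul] at h
  obtain ⟨p, hp⟩ : ∃ p, sm x y n i j p ≠ 0 := by
    by_contra hc
    push Not at hc
    exact h (finsum_eq_zero_of_forall_eq_zero hc)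
  unfold sm at hp
  obtain ⟨h1, h2, h3⟩ := hx _ _ _ (left_ne_zero_of_mul hp)
  obtain ⟨g1, g2, g3⟩ := hy _ _ _ (right_ne_zero_of_mul hp)
  push_cast at g2 g3
  refine ⟨by omega, ?_, ?_⟩
  · linarith
  · linarith

theorem Mc.incl {k : HK F} (hk : Low k c) : Mc a b s c (incl k) := by
  intro n i j h
  rw [cf_incl] at h
  split_ifs at h with h1
  · obtain ⟨rfl, rfl⟩ := h1
    have h2 : c ≤ n := by
      by_contra h3
      exact h (hk n (not_le.1 h3))
    simpa using h2
  · exact absurd rfl h

theorem Mc.one : Mc a b s 0 (1 : HR F) := by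
  have := Mc.incl (a := a) (b := b) (s := s) (c := 0) (k := (1 : HK F)) low_one
  simpa using this

theorem Mc.pow (hx : Mc a b s 0 x) (n : ℕ) : Mc a b s 0 (x ^ n) := by
  induction n with
  | zero => simpa using Mc.one
  | succ n ih => rw [pow_succ]; simpa using ih.mul hx

end wedge

open Classical in
theorem cf_tz (d : ℝ) (k l : ℤ) (n : ℝ) (i j : ℤ) :
    cf (tz F d k l) n i j = if n = d ∧ i = k ∧ j = l then 1 else 0 := by
  unfold cf tz
  by_cases h : n = d
  · subst h
    rw [HahnSeries.coeff_single_same, AddMonoidAlgebra.coeff_single, Finsupp.single_apply]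
    refine if_congr ?_ rfl rfl
    rw [Prod.ext_iff]
    simp only [true_and]
    constructor <;> rintro ⟨h1, h2⟩ <;> exact ⟨h1.symm, h2.symm⟩
  · rw [HahnSeries.coeff_single_of_ne h, if_neg (fun h1 => h h1.1)]
    simp

theorem Mc.tz {a b s c d : ℝ} {k l : ℤ} (h0 : 0 ≤ l) (h1 : c + a * k + s * l ≤ d)
    (h2 : c - b * k + s * l ≤ d) : Mc a b s c (tz F d k l) := by
  intro n i j h
  rw [cf_tz] at h
  split_ifs at h with h3
  · obtain ⟨rfl, rfl, rfl⟩ := h3
    exact ⟨h0, h1, h2⟩
  · exact absurd rfl h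

section edge
variable {a b s c c' : ℝ} {x y : HR F}

theorem Ep_add (a c : ℝ) (x y : HR F) : Ep a c (x + y) = Ep a c x + Ep a c y := by
  ext k
  simp only [Ep, PowerSeries.coeff_mk, map_add, cf_add]

theorem Em_add (b c : ℝ) (x y : HR F) : Em b c (x + y) = Em b c x + Em b c y := by
  ext k
  simp only [Em, PowerSeries.coeff_mk, map_add, cf_add]

theorem Ep_neg (a c : ℝ) (x : HR F) : Ep a c (-x) = -Ep a c x := by
  ext k
  simp only [Ep, PowerSeries.coeff_mk, map_neg, cf_neg]

theorem Em_neg (a c : ℝ) (x : HR F) : Em a c (-x) = -Em a c x := by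
  ext k
  simp only [Em, PowerSeries.coeff_mk, map_neg, cf_neg]

theorem Ep_sum (a c : ℝ) {κ : Type*} (t : Finset κ) (f : κ → HR F) :
    Ep a c (∑ k ∈ t, f k) = ∑ k ∈ t, Ep a c (f k) := by
  ext k
  simp only [Ep, PowerSeries.coeff_mk, map_sum, cf_sum]

theorem Em_sum (a c : ℝ) {κ : Type*} (t : Finset κ) (f : κ → HR F) :
    Em a c (∑ k ∈ t, f k) = ∑ k ∈ t, Em a c (f k) := by
  ext k
  simp only [Em, PowerSeries.coeff_mk, map_sum, cf_sum]

theorem Ep_mul (ha : 0 < a) (hb : 0 < b) (hs : 0 < s) (hx : Mc a b s c x) (hy : Mc a b s c' y) :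
    Ep a (c + c') (x * y) = Ep a c x * Ep a c' y := by
  classical
  ext k
  rw [PowerSeries.coeff_mul]
  simp only [Ep, PowerSeries.coeff_mk]
  rw [cf_mul]
  rw [finsum_eq_sum_of_support_subset (s := (Finset.HasAntidiagonal.antidiagonal k).image
    (fun q : ℕ × ℕ => ((c + a * q.1, ((q.1 : ℤ), (0 : ℤ))) : ℝ × (ℤ × ℤ))))]
  · rw [Finset.sum_image]
    · refine Finset.sum_congr rfl fun q hq => ?_
      rw [Finset.HasAntidiagonal.mem_antidiagonal] at hq
      unfold sm
      have h1 : (k : ℤ) - (q.1 : ℤ) = (q.2 : ℤ) := by omega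
      have h2 : c + c' + a * k - (c + a * q.1) = c' + a * q.2 := by
        have : (k : ℝ) = q.1 + q.2 := by exact_mod_cast hq.symm
        rw [this]; ring
      simp only
      rw [h1, h2, sub_zero]
    · intro q hq q' hq' h
      rw [Finset.mem_coe, Finset.HasAntidiagonal.mem_antidiagonal] at hq hq'
      simp only [Prod.mk.injEq] at h
      have h1 : q.1 = q'.1 := by exact_mod_cast h.2.1
      exact Prod.ext h1 (by omega)
  · intro p hp
    rw [Function.mem_support] at hp
    unfold sm at hp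
    obtain ⟨h1, h2, h3⟩ := hx _ _ _ (left_ne_zero_of_mul hp)
    obtain ⟨g1, g2, g3⟩ := hy _ _ _ (right_ne_zero_of_mul hp)
    push_cast at g2 g3
    have e1 : p.2.2 = 0 := by omega
    rw [e1] at h2 h3 g2 g3
    push_cast at h2 h3 g2 g3
    have e2 : p.1 = c + a * p.2.1 := by linarith
    have e3 : 0 ≤ p.2.1 := by
      by_contra h
      have h4 : (p.2.1 : ℝ) < 0 := by exact_mod_cast not_le.1 h
      nlinarith
    have e4 : 0 ≤ (k : ℤ) - p.2.1 := by
      by_contra h
      have h4 : ((k : ℝ) - p.2.1) < 0 := by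
        have := not_le.1 h
        have h5 : (((k : ℤ) - p.2.1 : ℤ) : ℝ) < 0 := by exact_mod_cast this
        push_cast at h5; exact h5
      nlinarith
    rw [Finset.coe_image]
    refine ⟨(p.2.1.toNat, ((k : ℤ) - p.2.1).toNat), ?_, ?_⟩
    · rw [Finset.mem_coe, Finset.HasAntidiagonal.mem_antidiagonal]
      simp only
      omega
    · have h5 : ((p.2.1.toNat : ℕ) : ℤ) = p.2.1 := Int.toNat_of_nonneg e3
      have h6 : ((p.2.1.toNat : ℕ) : ℝ) = (p.2.1 : ℝ) := by exact_mod_cast congrArg (Int.cast : ℤ → ℝ) h5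
      refine Prod.ext ?_ (Prod.ext ?_ ?_)
      · simp only; rw [h6, e2]
      · simp only; rw [h5]
      · simp only; exact e1.symm

theorem Em_mul (ha : 0 < a) (hb : 0 < b) (hs : 0 < s) (hx : Mc a b s c x) (hy : Mc a b s c' y) :
    Em b (c + c') (x * y) = Em b c x * Em b c' y := by
  classical
  ext k
  rw [PowerSeries.coeff_mul]
  simp only [Em, PowerSeries.coeff_mk]
  rw [cf_mul]
  rw [finsum_eq_sum_of_support_subset (s := (Finset.HasAntidiagonal.antidiagonal k).image
    (fun q : ℕ × ℕ => ((c + b * q.1, (-(q.1 : ℤ), (0 : ℤ))) : ℝ × (ℤ × ℤ))))]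
  · rw [Finset.sum_image]
    · refine Finset.sum_congr rfl fun q hq => ?_
      rw [Finset.HasAntidiagonal.mem_antidiagonal] at hq
      unfold sm
      have h1 : -(k : ℤ) - -(q.1 : ℤ) = -(q.2 : ℤ) := by omega
      have h2 : c + c' + b * k - (c + b * q.1) = c' + b * q.2 := by
        have : (k : ℝ) = q.1 + q.2 := by exact_mod_cast hq.symm
        rw [this]; ring
      simp only
      rw [h1, h2, sub_zero]
    · intro q hq q' hq' h
      rw [Finset.mem_coe, Finset.HasAntidiagonal.mem_antidiagonal] at hq hq'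
      simp only [Prod.mk.injEq] at h
      have h1 : q.1 = q'.1 := by
        have := h.2.1
        omega
      exact Prod.ext h1 (by omega)
  · intro p hp
    rw [Function.mem_support] at hp
    unfold sm at hp
    obtain ⟨h1, h2, h3⟩ := hx _ _ _ (left_ne_zero_of_mul hp)
    obtain ⟨g1, g2, g3⟩ := hy _ _ _ (right_ne_zero_of_mul hp)
    push_cast at g2 g3
    have e1 : p.2.2 = 0 := by omega
    rw [e1] at h2 h3 g2 g3
    push_cast at h2 h3 g2 g3
    have e2 : p.1 = c - b * p.2.1 := by linarith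
    have e3 : 0 ≤ -p.2.1 := by
      by_contra h
      have h4 : (0 : ℝ) < p.2.1 := by
        have h5 : 0 < p.2.1 := by omega
        exact_mod_cast h5
      nlinarith
    have e4 : 0 ≤ (k : ℤ) + p.2.1 := by
      by_contra h
      have h4 : ((k : ℝ) + p.2.1) < 0 := by
        have := not_le.1 h
        have h5 : (((k : ℤ) + p.2.1 : ℤ) : ℝ) < 0 := by exact_mod_cast this
        push_cast at h5; exact h5
      nlinarith
    rw [Finset.coe_image]
    refine ⟨((-p.2.1).toNat, ((k : ℤ) + p.2.1).toNat), ?_, ?_⟩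
    · rw [Finset.mem_coe, Finset.HasAntidiagonal.mem_antidiagonal]
      simp only
      omega
    · have h5 : (((-p.2.1).toNat : ℕ) : ℤ) = -p.2.1 := Int.toNat_of_nonneg e3
      have h6 : (((-p.2.1).toNat : ℕ) : ℝ) = -(p.2.1 : ℝ) := by
        have := congrArg (Int.cast : ℤ → ℝ) h5
        push_cast at this
        exact this
      refine Prod.ext ?_ (Prod.ext ?_ ?_)
      · simp only; rw [h6, e2]; ring
      · simp only; rw [h5, neg_neg]
      · simp only; exact e1.symm

theorem Ep_incl (ha : 0 < a) (k : HK F) : Ep a c (incl k) = PowerSeries.C (k.coeff c) := by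
  ext n
  simp only [Ep, PowerSeries.coeff_mk, cf_incl, PowerSeries.coeff_C]
  by_cases hn : n = 0
  · subst hn; simp
  · rw [if_neg, if_neg hn]
    rintro ⟨h, _⟩
    exact hn (by exact_mod_cast h)

theorem Em_incl (hb : 0 < b) (k : HK F) : Em b c (incl k) = PowerSeries.C (k.coeff c) := by
  ext n
  simp only [Em, PowerSeries.coeff_mk, cf_incl, PowerSeries.coeff_C]
  by_cases hn : n = 0
  · subst hn; simp
  · rw [if_neg, if_neg hn]
    rintro ⟨h, _⟩
    apply hn
    omega

theorem Ep_one (ha : 0 < a) : Ep a 0 (1 : HR F) = 1 := by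
  have := Ep_incl (c := 0) ha (1 : HK F)
  simpa using this

theorem Em_one (hb : 0 < b) : Em b 0 (1 : HR F) = 1 := by
  have := Em_incl (c := 0) hb (1 : HK F)
  simpa using this

theorem Ep_pow (ha : 0 < a) (hb : 0 < b) (hs : 0 < s) (hx : Mc a b s 0 x) (n : ℕ) :
    Ep a 0 (x ^ n) = Ep a 0 x ^ n := by
  induction n with
  | zero => simpa using Ep_one ha
  | succ n ih =>
    rw [pow_succ, pow_succ, ← ih]
    have := Ep_mul ha hb hs (hx.pow n) hx
    simpa using this

theorem Em_pow (ha : 0 < a) (hb : 0 < b) (hs : 0 < s) (hx : Mc a b s 0 x) (n : ℕ) :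
    Em b 0 (x ^ n) = Em b 0 x ^ n := by
  induction n with
  | zero => simpa using Em_one hb
  | succ n ih =>
    rw [pow_succ, pow_succ, ← ih]
    have := Em_mul ha hb hs (hx.pow n) hx
    simpa using this

end edge

end Pool.Agent.TH793.NG
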