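import Pool.Agent.TH793.NG.Tube

/-! Leading coefficients of sections on the tube. -/

set_option autoImplicit false

namespace Pool.Agent.TH793.NG

open Pool.Agent.TH603.EL Pool.Agent.TH603.EL.Scal2

section bar
variable {F : Type} [Field F]

/-- the value of a polynomial with coefficients in `K` -/
noncomputable def evA (x : HR F) (A : Polynomial (HK F)) : HR F := A.eval₂ incl x

/-- the coefficients of `t ^ c` -/
noncomputable def bar (c : ℝ) (A : Polynomial (HK F)) : Polynomial F :=
  ∑ k ∈ Finset.range (A.natDegree + 1), Polynomial.monomial k ((A.coeff k).coeff c)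

theorem coeff_bar (c : ℝ) (A : Polynomial (HK F)) (k : ℕ) :
    (bar c A).coeff k = (A.coeff k).coeff c := by
  unfold bar
  rw [Polynomial.finsetSum_coeff]
  simp only [Polynomial.coeff_monomial]
  rw [Finset.sum_ite_eq' (Finset.range (A.natDegree + 1)) k]
  split_ifs with h
  · rfl
  · rw [Finset.mem_range, not_lt] at h
    rw [Polynomial.coeff_eq_zero_of_natDegree_lt (by omega)]
    simp

theorem natDegree_bar (c : ℝ) (A : Polynomial (HK F)) : (bar c A).natDegree ≤ A.natDegree := by
  rw [Polynomial.natDegree_le_iff_coeff_eq_zero]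
  intro k hk
  rw [coeff_bar, Polynomial.coeff_eq_zero_of_natDegree_lt hk]
  simp

theorem exists_min (A B : Polynomial (HK F)) (h : A ≠ 0 ∨ B ≠ 0) : ∃ c : ℝ,
    (∀ k, Low (A.coeff k) c) ∧ (∀ k, Low (B.coeff k) c) ∧ (bar c A ≠ 0 ∨ bar c B ≠ 0) := by
  classical
  set T : Finset ℝ := (A.support.image fun k => (A.coeff k).order) ∪
    (B.support.image fun k => (B.coeff k).order) with hT
  have hTn : T.Nonempty := by
    rcases h with h | h
    · obtain ⟨k, hk⟩ := Polynomial.nonempty_support_iff.2 h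
      exact ⟨_, Finset.mem_union_left _ (Finset.mem_image_of_mem _ hk)⟩
    · obtain ⟨k, hk⟩ := Polynomial.nonempty_support_iff.2 h
      exact ⟨_, Finset.mem_union_right _ (Finset.mem_image_of_mem _ hk)⟩
  refine ⟨T.min' hTn, ?_, ?_, ?_⟩
  · intro k n hn
    by_cases hk : A.coeff k = 0
    · rw [hk]; simp
    · apply HahnSeries.coeff_eq_zero_of_lt_order
      refine lt_of_lt_of_le hn (Finset.min'_le _ _ ?_)
      exact Finset.mem_union_left _ (Finset.mem_image_of_mem _ (Polynomial.mem_support_iff.2 hk))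
  · intro k n hn
    by_cases hk : B.coeff k = 0
    · rw [hk]; simp
    · apply HahnSeries.coeff_eq_zero_of_lt_order
      refine lt_of_lt_of_le hn (Finset.min'_le _ _ ?_)
      exact Finset.mem_union_right _ (Finset.mem_image_of_mem _ (Polynomial.mem_support_iff.2 hk))
  · rcases Finset.mem_union.1 (T.min'_mem hTn) with h1 | h1
    · left
      obtain ⟨k, hk, hk'⟩ := Finset.mem_image.1 h1
      intro h0
      have h2 := coeff_bar (T.min' hTn) A k
      rw [h0, ← hk'] at h2
      rw [Polynomial.coeff_zero] at h2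
      exact HahnSeries.coeff_order_eq_zero.not.2 (Polynomial.mem_support_iff.1 hk) h2.symm
    · right
      obtain ⟨k, hk, hk'⟩ := Finset.mem_image.1 h1
      intro h0
      have h2 := coeff_bar (T.min' hTn) B k
      rw [h0, ← hk'] at h2
      rw [Polynomial.coeff_zero] at h2
      exact HahnSeries.coeff_order_eq_zero.not.2 (Polynomial.mem_support_iff.1 hk) h2.symm

variable {a b s c : ℝ} {x : HR F}

theorem evA_wedge {A : Polynomial (HK F)} (hA : ∀ k, Low (A.coeff k) c) (hx : Mc a b s 0 x) :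
    Mc a b s c (evA x A) := by
  unfold evA
  rw [Polynomial.eval₂_eq_sum_range]
  apply Mc.sum
  intro k _
  have := (Mc.incl (a := a) (b := b) (s := s) (hA k)).mul (hx.pow k)
  rwa [add_zero] at this

theorem Ep_evA (ha : 0 < a) (hb : 0 < b) (hs : 0 < s) {A : Polynomial (HK F)}
    (hA : ∀ k, Low (A.coeff k) c) (hx : Mc a b s 0 x) (hX : Ep a 0 x = PowerSeries.X) :
    Ep a c (evA x A) = (bar c A : PowerSeries F) := by
  unfold evA
  rw [Polynomial.eval₂_eq_sum_range, Ep_sum]
  have h1 : ∀ k ∈ Finset.range (A.natDegree + 1), Ep a c (incl (A.coeff k) * x ^ k) =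
      PowerSeries.C ((A.coeff k).coeff c) * PowerSeries.X ^ k := by
    intro k _
    have h2 := Ep_mul ha hb hs (Mc.incl (a := a) (b := b) (s := s) (hA k)) (hx.pow k)
    rw [add_zero, Ep_incl ha, Ep_pow ha hb hs hx, hX] at h2
    exact h2
  rw [Finset.sum_congr rfl h1]
  ext n
  rw [Polynomial.coeff_coe, coeff_bar, map_sum]
  simp only [PowerSeries.coeff_C_mul, PowerSeries.coeff_X_pow, mul_ite, mul_one, mul_zero]
  rw [Finset.sum_ite_eq (Finset.range (A.natDegree + 1)) n]
  split_ifs with h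
  · rfl
  · rw [Finset.mem_range, not_lt] at h
    rw [Polynomial.coeff_eq_zero_of_natDegree_lt (by omega)]
    simp

theorem Em_evA (ha : 0 < a) (hb : 0 < b) (hs : 0 < s) {A : Polynomial (HK F)}
    (hA : ∀ k, Low (A.coeff k) c) (hx : Mc a b s 0 x) (hX : Em b 0 x = PowerSeries.X) :
    Em b c (evA x A) = (bar c A : PowerSeries F) := by
  unfold evA
  rw [Polynomial.eval₂_eq_sum_range, Em_sum]
  have h1 : ∀ k ∈ Finset.range (A.natDegree + 1), Em b c (incl (A.coeff k) * x ^ k) =
      PowerSeries.C ((A.coeff k).coeff c) * PowerSeries.X ^ k := by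
    intro k _
    have h2 := Em_mul ha hb hs (Mc.incl (a := a) (b := b) (s := s) (hA k)) (hx.pow k)
    rw [add_zero, Em_incl hb, Em_pow ha hb hs hx, hX] at h2
    exact h2
  rw [Finset.sum_congr rfl h1]
  ext n
  rw [Polynomial.coeff_coe, coeff_bar, map_sum]
  simp only [PowerSeries.coeff_C_mul, PowerSeries.coeff_X_pow, mul_ite, mul_one, mul_zero]
  rw [Finset.sum_ite_eq (Finset.range (A.natDegree + 1)) n]
  split_ifs with h
  · rfl
  · rw [Finset.mem_range, not_lt] at h
    rw [Polynomial.coeff_eq_zero_of_natDegree_lt (by omega)]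
    simp

end bar

/-- the norm form does not vanish -/
theorem norm_ne {F : Type} [Field F] (A B : Polynomial F) (h : A ≠ 0 ∨ B ≠ 0) :
    A ^ 2 - Polynomial.X ^ 2 * (1 + Polynomial.X) * B ^ 2 ≠ 0 := by
  intro h0
  have h1 : A ^ 2 = Polynomial.X ^ 2 * (1 + Polynomial.X) * B ^ 2 := sub_eq_zero.1 h0
  have hX : (1 + Polynomial.X : Polynomial F) ≠ 0 := by
    intro h2
    have := congrArg (Polynomial.eval 0) h2
    simp at this
  have hXd : (1 + Polynomial.X : Polynomial F).natDegree = 1 := by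
    have : (1 + Polynomial.X : Polynomial F) = Polynomial.X + Polynomial.C 1 := by
      rw [Polynomial.C_1, add_comm]
    rw [this, Polynomial.natDegree_X_add_C]
  by_cases hB : B = 0
  · subst hB
    have hA : A = 0 := by
      have : A ^ 2 = 0 := by rw [h1]; ring
      exact pow_eq_zero_iff (two_ne_zero) |>.1 this
    rcases h with h | h
    · exact h hA
    · exact h rfl
  · have h2 := congrArg Polynomial.natDegree h1
    rw [Polynomial.natDegree_pow, Polynomial.natDegree_mul (mul_ne_zero (pow_ne_zero 2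
      Polynomial.X_ne_zero) hX) (pow_ne_zero 2 hB), Polynomial.natDegree_mul (pow_ne_zero 2
      Polynomial.X_ne_zero) hX, Polynomial.natDegree_X_pow, hXd, Polynomial.natDegree_pow] at h2
    omega

theorem norm_deg {F : Type} [Field F] (A B : Polynomial F) {m : ℕ} (hA : A.natDegree ≤ m)
    (hB : B = 0 ∨ 2 * B.natDegree + 3 ≤ 2 * m) :
    (A ^ 2 - Polynomial.X ^ 2 * (1 + Polynomial.X) * B ^ 2).natDegree ≤ 2 * m := by
  have hXd : (1 + Polynomial.X : Polynomial F).natDegree ≤ 1 := by
    have : (1 + Polynomial.X : Polynomial F) = Polynomial.X + Polynomial.C 1 := by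
      rw [Polynomial.C_1, add_comm]
    rw [this, Polynomial.natDegree_X_add_C]
  have h1 : (A ^ 2).natDegree ≤ 2 * m := by
    refine (Polynomial.natDegree_pow_le).trans ?_
    omega
  have h2 : (Polynomial.X ^ 2 * (1 + Polynomial.X) * B ^ 2).natDegree ≤ 2 * m := by
    rcases hB with hB | hB
    · subst hB; simp
    · refine (Polynomial.natDegree_mul_le).trans ?_
      have h3 : (Polynomial.X ^ 2 * (1 + Polynomial.X) : Polynomial F).natDegree ≤ 3 := by
        refine (Polynomial.natDegree_mul_le).trans ?_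
        rw [Polynomial.natDegree_X_pow]
        omega
      have h4 : (B ^ 2).natDegree ≤ 2 * B.natDegree := Polynomial.natDegree_pow_le
      omega
  exact (Polynomial.natDegree_sub_le _ _).trans (max_le h1 h2)

section lead
variable {F : Type} [Field F] [CharZero F] {a b s : ℝ}

/-- the leading coefficient of a section -/
theorem g_lead (ha : 0 < a) (hb : 0 < b) (hs : 0 < s) (hab : a + b = 1) {m : ℕ}
    (A B : Polynomial (HK F)) (hne : A ≠ 0 ∨ B ≠ 0) (hA : A.natDegree ≤ m)
    (hB : B = 0 ∨ 2 * B.natDegree + 3 ≤ 2 * m) (hsm : 2 * (m : ℝ) < s) :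
    ∃ n : ℝ, Low (evA (xx F a b s) A + evA (xx F a b s) B * yy F a b s) n ∧
      (∃ i j, cf (evA (xx F a b s) A + evA (xx F a b s) B * yy F a b s) n i j ≠ 0) ∧
      ∀ i j, cf (evA (xx F a b s) A + evA (xx F a b s) B * yy F a b s) n i j ≠ 0 →
        j = 0 ∧ -(2 * m * a) ≤ i ∧ (i : ℝ) ≤ 2 * m * b := by
  obtain ⟨c, hcA, hcB, hc⟩ := exists_min A B hne
  obtain ⟨σ, hσ, hp, hm⟩ := edges_yy F ha hb hs
  obtain ⟨G, hG⟩ : ∃ G, G = evA (xx F a b s) A + evA (xx F a b s) B * yy F a b s := ⟨_, rfl⟩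
  rw [← hG]
  have hxx := Mc_xx F ha hb hs
  have hyy := Mc_yy F ha hb hs
  have hMA := evA_wedge hcA hxx
  have hMB := evA_wedge hcB hxx
  have hM : Mc a b s c G := by
    rw [hG]
    refine hMA.add ?_
    have := hMB.mul hyy
    rwa [add_zero] at this
  have hEp : Ep a c G = (bar c A : PowerSeries F) - (bar c B : PowerSeries F) * (σ * PowerSeries.X) := by
    have h1 := Ep_mul ha hb hs hMB hyy
    rw [add_zero, hp, Ep_evA ha hb hs hcB hxx (Ep_xx F ha)] at h1
    rw [hG, Ep_add, h1, Ep_evA ha hb hs hcA hxx (Ep_xx F ha)]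
    ring
  have hEm : Em b c G = (bar c A : PowerSeries F) + (bar c B : PowerSeries F) * (σ * PowerSeries.X) := by
    have h1 := Em_mul ha hb hs hMB hyy
    rw [add_zero, hm, Em_evA ha hb hs hcB hxx (Em_xx F)] at h1
    rw [hG, Em_add, h1, Em_evA ha hb hs hcA hxx (Em_xx F)]
  obtain ⟨N, hN⟩ : ∃ N : Polynomial F, N = bar c A ^ 2 - Polynomial.X ^ 2 * (1 + Polynomial.X) * bar c B ^ 2 :=
    ⟨_, rfl⟩
  have hN0 : N ≠ 0 := by rw [hN]; exact norm_ne _ _ hc
  have hNd : N.natDegree ≤ 2 * m := by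
    rw [hN]
    refine norm_deg _ _ ((natDegree_bar c A).trans hA) ?_
    rcases hB with hB | hB
    · left
      ext k
      rw [coeff_bar, hB]; simp
    · right
      have := natDegree_bar c B
      omega
  have hprod : Ep a c G * Em b c G = (N : PowerSeries F) := by
    rw [hEp, hEm, hN]
    push_cast
    linear_combination (-(PowerSeries.X ^ 2) * (bar c B : PowerSeries F) ^ 2) * hσ
  have hNs : (N : PowerSeries F) ≠ 0 := by
    intro h
    apply hN0
    exact_mod_cast h
  have hEp0 : Ep a c G ≠ 0 := fun h => hNs (by rw [← hprod, h, zero_mul])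
  have hEm0 : Em b c G ≠ 0 := fun h => hNs (by rw [← hprod, h, mul_zero])
  have hord : (Ep a c G).order + (Em b c G).order ≤ ((2 * m : ℕ) : ℕ∞) := by
    rw [← PowerSeries.order_mul, hprod]
    refine (PowerSeries.order_le N.natDegree ?_).trans (by exact_mod_cast hNd)
    rw [Polynomial.coeff_coe]
    exact Polynomial.leadingCoeff_ne_zero.2 hN0
  obtain ⟨i0, hi0⟩ : ∃ i0 : ℕ, (Ep a c G).order = i0 :=
    ⟨_, (PowerSeries.coe_toNat_order hEp0).symm⟩
  obtain ⟨i1, hi1⟩ : ∃ i1 : ℕ, (Em b c G).order = i1 :=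
    ⟨_, (PowerSeries.coe_toNat_order hEm0).symm⟩
  rw [hi0, hi1] at hord
  have hle : i0 + i1 ≤ 2 * m := by exact_mod_cast hord
  have h0 : cf G (c + a * i0) i0 0 ≠ 0 := by
    have := PowerSeries.coeff_order hEp0
    rw [hi0] at this
    simpa [Ep] using this
  have h1 : cf G (c + b * i1) (-i1) 0 ≠ 0 := by
    have := PowerSeries.coeff_order hEm0
    rw [hi1] at this
    simpa [Em] using this
  have hcoeff : ∀ n i j, cf G n i j ≠ 0 → G.coeff n ≠ 0 := by
    intro n i j h h2
    apply h
    unfold cf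
    rw [h2]; simp
  have hG0 : G ≠ 0 := by
    intro h
    apply h0
    rw [h, cf_zero]
  have ho0 : G.order ≤ c + a * i0 := HahnSeries.order_le_of_coeff_ne_zero (hcoeff _ _ _ h0)
  have ho1 : G.order ≤ c + b * i1 := HahnSeries.order_le_of_coeff_ne_zero (hcoeff _ _ _ h1)
  have hle' : (i0 : ℝ) + i1 ≤ 2 * m := by exact_mod_cast hle
  have hi0' : (0 : ℝ) ≤ i0 := Nat.cast_nonneg _
  have hi1' : (0 : ℝ) ≤ i1 := Nat.cast_nonneg _
  refine ⟨G.order, fun n hn => HahnSeries.coeff_eq_zero_of_lt_order hn, ?_, ?_⟩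
  · by_contra hcon
    push Not at hcon
    apply HahnSeries.coeff_order_eq_zero.not.2 hG0
    ext ⟨i, j⟩
    exact hcon i j
  · intro i j hij
    obtain ⟨g1, g2, g3⟩ := hM _ _ _ hij
    have hj : j = 0 := by
      by_contra hj
      have hj1 : (1 : ℝ) ≤ j := by
        have : 1 ≤ j := by omega
        exact_mod_cast this
      have h5 : s ≤ s * j := by nlinarith
      have h6 : a * i0 ≤ 2 * m := by nlinarith
      rcases le_total (0 : ℝ) i with h7 | h7
      · nlinarith
      · nlinarith
    subst hj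
    push_cast at g2 g3
    have k1 : a * i ≤ a * i0 := by linarith
    have k2 : a * i ≤ b * i1 := by linarith
    have k3 : -(b * i) ≤ a * i0 := by linarith
    have k4 : -(b * i) ≤ b * i1 := by linarith
    have k5 : (i : ℝ) ≤ i0 := le_of_mul_le_mul_left k1 ha
    have k6 : -(i : ℝ) ≤ i1 := by
      have : b * (-(i : ℝ)) ≤ b * i1 := by linarith
      exact le_of_mul_le_mul_left this hb
    refine ⟨rfl, ?_, ?_⟩
    · have k7 : a * (-(i : ℝ)) ≤ a * i1 := mul_le_mul_of_nonneg_left k6 ha.le
      have k8 : (i : ℝ) = a * i + b * i := by rw [← add_mul, hab, one_mul]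
      have k9 : a * ((i0 : ℝ) + i1) ≤ a * (2 * m) := mul_le_mul_of_nonneg_left hle' ha.le
      linarith
    · have k7 : b * (i : ℝ) ≤ b * i0 := mul_le_mul_of_nonneg_left k5 hb.le
      have k8 : (i : ℝ) = a * i + b * i := by rw [← add_mul, hab, one_mul]
      have k9 : b * ((i0 : ℝ) + i1) ≤ b * (2 * m) := mul_le_mul_of_nonneg_left hle' hb.le
      linarith

end lead

end Pool.Agent.TH793.NG
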